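import Pool.Agent.Helper19.HV.Curve
import Pool.Agent.Helper91.PL.A7

/-!
# Project HV (MP_bae8ce_ag), module SPC: specialisation respects the relations
-/

set_option autoImplicit false

open Polynomial

namespace Pool.Agent.Helper19.HV

noncomputable section

open PL

open scoped TensorProduct

private theorem spc_R (k : ℕ) (F : Type) [Field F] :
    R (k + 2) F = Rgen F (AA (k + 2) (RatFunc F)) := by
  cases k <;> rfl

private theorem spc_zero (k : ℕ) (F : Type) [Field F] :
    (Finsupp.single (some 0) 1 : ZP F) ∈ R (k + 2) F := by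
  rw [spc_R]
  exact a7_zero_mem _

private theorem spc_none (k : ℕ) (F : Type) [Field F] :
    (Finsupp.single none 1 : ZP F) ∈ R (k + 2) F := by
  rw [spc_R]
  exact a7_none_mem _

private theorem spc_val_none {F : Type} [Field F] (a : F) :
    val a (none : P1 (RatFunc F)) = none := rfl

private theorem spc_val_zero {F : Type} [Field F] (a : F) :
    val a (some (0 : RatFunc F)) = some 0 := by
  have h := val_C a (0 : F)
  rwa [map_zero] at h

/-- Symbols with trivial class are in the kernels. -/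
private theorem spc_single (k : ℕ) {F : Type} [Field F] {x : P1 F} (h : cl x = 0) :
    (Finsupp.single x 1 : ZP F) ∈ AA (k + 2) F := by
  cases k with
  | zero =>
    change _ ∈ LinearMap.ker (δ2 F)
    rw [ker_δ2]
    exact a7_single_mem h 1
  | succ k =>
    change _ ∈ LinearMap.ker (δ (R (k + 2) F))
    rw [LinearMap.mem_ker]
    change Finsupp.linearCombination ℚ (fun x : P1 F =>
      ((R (k + 2) F).mkQ (Finsupp.single x 1) ⊗ₜ[ℚ] cl x :
        (ZP F ⧸ R (k + 2) F) ⊗[ℚ] V F)) (Finsupp.single x 1) = 0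
    rw [Finsupp.linearCombination_single, h, TensorProduct.tmul_zero, smul_zero]

/-- Specialisation of the kernels, first step. -/
private theorem spc_AA_zero {F : Type} [Field F] (a : F) {α : ZP (RatFunc F)}
    (h : α ∈ AA 2 (RatFunc F)) : spec a α ∈ AA 2 F := by
  change α ∈ LinearMap.ker (δ2 (RatFunc F)) at h
  change spec a α ∈ LinearMap.ker (δ2 F)
  rw [ker_δ2] at h ⊢
  exact NN_spec 0 a h

/-- Specialisation of the kernels, inductive step. -/
private theorem spc_AA_succ (k : ℕ) {F : Type} [Field F] (a : F)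
    (hR : ∀ β : ZP (RatFunc F), β ∈ R (k + 2) (RatFunc F) → spec a β ∈ R (k + 2) F)
    {α : ZP (RatFunc F)} (h : α ∈ AA (k + 3) (RatFunc F)) : spec a α ∈ AA (k + 3) F := by
  change α ∈ LinearMap.ker (δ (R (k + 2) (RatFunc F))) at h
  change spec a α ∈ LinearMap.ker (δ (R (k + 2) F))
  rw [LinearMap.mem_ker] at h ⊢
  obtain ⟨L, hL⟩ := exists_lc a
  let s : (ZP (RatFunc F) ⧸ R (k + 2) (RatFunc F)) →ₗ[ℚ] (ZP F ⧸ R (k + 2) F) :=
    Submodule.mapQ _ _ (spec a) hR
  let T : (ZP (RatFunc F) ⧸ R (k + 2) (RatFunc F)) ⊗[ℚ] V (RatFunc F) →ₗ[ℚ]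
      (ZP F ⧸ R (k + 2) F) ⊗[ℚ] V F := TensorProduct.map s L
  have key : ∀ γ : ZP (RatFunc F),
      T (Finsupp.linearCombination ℚ
        (fun x => (R (k + 2) (RatFunc F)).mkQ (Finsupp.single x 1) ⊗ₜ[ℚ] cl x) γ) =
      Finsupp.linearCombination ℚ
        (fun x => (R (k + 2) F).mkQ (Finsupp.single x 1) ⊗ₜ[ℚ] cl x) (spec a γ) := by
    intro γ
    have h1 : T ∘ₗ Finsupp.linearCombination ℚ
        (fun x => (R (k + 2) (RatFunc F)).mkQ (Finsupp.single x 1) ⊗ₜ[ℚ] cl x) =
        (Finsupp.linearCombination ℚ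
          (fun x => (R (k + 2) F).mkQ (Finsupp.single x 1) ⊗ₜ[ℚ] cl x)) ∘ₗ spec a := by
      refine Finsupp.lhom_ext' fun x => LinearMap.ext_ring ?_
      simp only [LinearMap.coe_comp, Function.comp_apply, Finsupp.lsingle_apply,
        Finsupp.linearCombination_single, one_smul, a7_spec_single]
      have h2 : T ((R (k + 2) (RatFunc F)).mkQ (Finsupp.single x 1) ⊗ₜ[ℚ] cl x) =
          (R (k + 2) F).mkQ (Finsupp.single (val a x) 1) ⊗ₜ[ℚ] L (cl x) := by
        change s ((R (k + 2) (RatFunc F)).mkQ (Finsupp.single x 1)) ⊗ₜ[ℚ] L (cl x) = _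
        congr 1
        change Submodule.mapQ _ _ (spec a) hR (Submodule.Quotient.mk (Finsupp.single x 1)) = _
        rw [Submodule.mapQ_apply, a7_spec_single]
        rfl
      rw [h2]
      rcases hv : val a x with _ | c
      · have h3 : (R (k + 2) F).mkQ (Finsupp.single none 1) = 0 := by
          rw [Submodule.mkQ_apply, Submodule.Quotient.mk_eq_zero]
          exact spc_none k F
        rw [h3, TensorProduct.zero_tmul, TensorProduct.zero_tmul]
      · by_cases hc : c = 0
        · subst hc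
          have h3 : (R (k + 2) F).mkQ (Finsupp.single (some 0) 1) = 0 := by
            rw [Submodule.mkQ_apply, Submodule.Quotient.mk_eq_zero]
            exact spc_zero k F
          rw [h3, TensorProduct.zero_tmul, TensorProduct.zero_tmul]
        · rcases x with _ | g
          · rw [spc_val_none] at hv
            exact absurd hv (by simp)
          · have h3 : L (cl (some g)) = cl (some c) := hL g c hv hc
            rw [h3]
    exact LinearMap.congr_fun h1 γ
  have h4 := key α
  have h5 : Finsupp.linearCombination ℚ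
      (fun x => (R (k + 2) (RatFunc F)).mkQ (Finsupp.single x 1) ⊗ₜ[ℚ] cl x) α = 0 := h
  rw [h5, map_zero] at h4
  exact h4.symm

private theorem spc_le (k : ℕ) {F : Type} [Field F]
    (hA : ∀ (a : F) (α : ZP (RatFunc F)), α ∈ AA (k + 2) (RatFunc F) →
      spec a α ∈ AA (k + 2) F) : R (k + 2) F ≤ AA (k + 2) F := by
  rw [spc_R]
  refine sup_le (Submodule.span_le.2 ?_) (Submodule.map_le_iff_le_comap.2 ?_)
  · rintro x (rfl | rfl)
    · exact spc_single k a7_cl_zero
    · exact spc_single k a7_cl_none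
  · intro α hα
    exact Submodule.sub_mem _ (hA 0 α hα) (hA 1 α hα)

private theorem spc_comp {F G : Type} [Field F] [Field G] (τ : G →+* RatFunc F) (c : F)
    (v : P1 G → P1 F) (h : ∀ x : P1 G, val c (Option.map τ x) = v x)
    (ρ : ZP G) : spec c (mapP τ ρ) = Finsupp.mapDomain v ρ := by
  unfold spec mapP
  rw [Finsupp.lmapDomain_apply, Finsupp.lmapDomain_apply, ← Finsupp.mapDomain_comp]
  congr 1
  funext x
  exact h x

private theorem spc_span (k : ℕ) {F : Type} [Field F] (b : F) {r : ZP (RatFunc F)}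
    (hr : r ∈ Submodule.span ℚ
      {(Finsupp.single (some 0) 1 : ZP (RatFunc F)), Finsupp.single none 1}) :
    spec b r ∈ R (k + 2) F := by
  have h : Submodule.span ℚ
      {(Finsupp.single (some 0) 1 : ZP (RatFunc F)), Finsupp.single none 1} ≤
        (R (k + 2) F).comap (spec b) := by
    refine Submodule.span_le.2 ?_
    rintro x (rfl | rfl)
    · rw [SetLike.mem_coe, Submodule.mem_comap, a7_spec_single, spc_val_zero]
      exact spc_zero k F
    · rw [SetLike.mem_coe, Submodule.mem_comap, a7_spec_single, spc_val_none]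
      exact spc_none k F
  exact h hr

private theorem spc_R_spec (k : ℕ)
    (hFUN : ∀ {F G : Type} [Field F] [Field G] (σ : F →+* G) (α : ZP F),
      α ∈ AA (k + 2) F → mapP σ α ∈ AA (k + 2) G)
    (hAFF : ∀ {F : Type} [Field F] (a b : F), a ≠ b →
      ∃ τ : RatFunc F →+* RatFunc F, (∀ x : P1 (RatFunc F), val 0 (Option.map τ x) = val a x) ∧
        ∀ x : P1 (RatFunc F), val 1 (Option.map τ x) = val b x)
    (hSWP : ∀ {F : Type} [Field F] [Infinite F],
      ∃ σ : RatFunc (RatFunc F) →+* RatFunc (RatFunc F), ∀ α : ZP (RatFunc (RatFunc F)),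
        ∃ S : Finset F, ∀ b ∉ S,
          spec (0 : F) (spec (RatFunc.C b) (mapP σ α)) = spec b (spec (0 : RatFunc F) α) ∧
          spec (1 : F) (spec (RatFunc.C b) (mapP σ α)) = spec b (spec (1 : RatFunc F) α))
    (hA : ∀ {F : Type} [Field F] [Infinite F] (a : F) (α : ZP (RatFunc F)),
      α ∈ AA (k + 2) (RatFunc F) → spec a α ∈ AA (k + 2) F)
    {F : Type} [Field F] [Infinite F] (a : F) (ρ : ZP (RatFunc F))
    (hρ : ρ ∈ R (k + 2) (RatFunc F)) : spec a ρ ∈ R (k + 2) F := by
  have hinf : Infinite (RatFunc F) :=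
    Infinite.of_injective (RatFunc.C : F →+* RatFunc F) (RatFunc.C : F →+* RatFunc F).injective
  have hsub : ∀ β : ZP (RatFunc F), β ∈ AA (k + 2) (RatFunc F) →
      spec 0 β - spec 1 β ∈ R (k + 2) F := by
    intro β hβ
    rw [spc_R]
    exact a7_sub_mem hβ
  have hρA : ρ ∈ AA (k + 2) (RatFunc F) := spc_le k (fun c α hα => hA c α hα) hρ
  -- the differences of specialisations
  have h1 : ∀ b : F, a ≠ b → spec a ρ - spec b ρ ∈ R (k + 2) F := by
    intro b hab
    obtain ⟨τ, h0, h1⟩ := hAFF a b hab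
    have h2 := hsub _ (hFUN τ ρ hρA)
    rw [spc_comp τ 0 (val a) h0, spc_comp τ 1 (val b) h1] at h2
    exact h2
  -- one specialisation
  have hρ' := hρ
  rw [spc_R] at hρ'
  obtain ⟨r, hr, m, hm, hrm⟩ := Submodule.mem_sup.1 hρ'
  obtain ⟨α, hα, rfl⟩ := hm
  obtain ⟨σ, hσ⟩ := hSWP (F := F)
  obtain ⟨S, hS⟩ := hσ α
  classical
  obtain ⟨b, hb⟩ := Infinite.exists_notMem_finset (insert a S)
  have hba : a ≠ b := fun h => hb (by rw [← h]; exact Finset.mem_insert_self _ _)
  have hbS : b ∉ S := fun h => hb (Finset.mem_insert_of_mem h)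
  obtain ⟨e0, e1⟩ := hS b hbS
  have h3 : spec (RatFunc.C b) (mapP σ α) ∈ AA (k + 2) (RatFunc F) :=
    hA (RatFunc.C b) _ (hFUN σ α hα)
  have h4 := hsub _ h3
  rw [e0, e1, ← map_sub] at h4
  have h5 : spec b ρ ∈ R (k + 2) F := by
    rw [← hrm, map_add]
    exact Submodule.add_mem _ (spc_span k b hr) h4
  have h6 := Submodule.add_mem _ (h1 b hba) h5
  rwa [sub_add_cancel] at h6

/-- SPC.  Specialisation respects the kernels and the relations. -/
theorem mSPC
    (hFUN : ∀ (k : ℕ) {F G : Type} [Field F] [Field G] (σ : F →+* G) (α : ZP F),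
      (α ∈ AA (k + 2) F → mapP σ α ∈ AA (k + 2) G) ∧
        (α ∈ R (k + 2) F → mapP σ α ∈ R (k + 2) G))
    (hAFF : ∀ {F : Type} [Field F] (a b : F), a ≠ b →
      ∃ τ : RatFunc F →+* RatFunc F, (∀ x : P1 (RatFunc F), val 0 (Option.map τ x) = val a x) ∧
        ∀ x : P1 (RatFunc F), val 1 (Option.map τ x) = val b x)
    (hSWP : ∀ {F : Type} [Field F] [Infinite F],
      ∃ σ : RatFunc (RatFunc F) →+* RatFunc (RatFunc F), ∀ α : ZP (RatFunc (RatFunc F)),
        ∃ S : Finset F, ∀ b ∉ S,
          spec (0 : F) (spec (RatFunc.C b) (mapP σ α)) = spec b (spec (0 : RatFunc F) α) ∧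
          spec (1 : F) (spec (RatFunc.C b) (mapP σ α)) = spec b (spec (1 : RatFunc F) α))
    (k : ℕ) : ∀ {F : Type} [Field F] [Infinite F],
      (∀ (a : F) (α : ZP (RatFunc F)), (α ∈ AA (k + 2) (RatFunc F) → spec a α ∈ AA (k + 2) F) ∧
        (α ∈ R (k + 2) (RatFunc F) → spec a α ∈ R (k + 2) F)) ∧
      R (k + 2) F ≤ AA (k + 2) F := by
  have hA : ∀ {F : Type} [Field F] [Infinite F] (a : F) (α : ZP (RatFunc F)),
      α ∈ AA (k + 2) (RatFunc F) → spec a α ∈ AA (k + 2) F := by
    induction k with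
    | zero =>
      intro F _ _ a α h
      exact spc_AA_zero a h
    | succ k ih =>
      intro F _ _ a α h
      refine spc_AA_succ k a (fun β hβ => ?_) h
      exact spc_R_spec k (fun σ α => (hFUN k σ α).1) hAFF hSWP ih a β hβ
  intro F _ _
  refine ⟨fun a α => ⟨hA a α, ?_⟩, spc_le k fun a α h => hA a α h⟩
  exact spc_R_spec k (fun σ α => (hFUN k σ α).1) hAFF hSWP hA a α

end

end Pool.Agent.Helper19.HV
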